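import Mathlib

set_option autoImplicit false
open scoped commutatorElement

namespace Pool.Agent.Helper351.LE

/-- a nontrivial finitely generated torsion-free abelian group maps onto the integers (given) -/
theorem ab_surj (A : Type*) [Group A] (hc : ∀ x y : A, x * y = y * x) (hfg : Group.FG A)
    (ht : ∀ (x : A) (n : ℕ), 0 < n → x ^ n = 1 → x = 1) (h1 : ∃ x : A, x ≠ 1) :
    ∃ φ : A →* Multiplicative ℤ, Function.Surjective φ := by
  classical
  letI cg : CommGroup A := { (inferInstance : Group A) with mul_comm := hc }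
  have htf : IsMulTorsionFree A := by
    refine ⟨fun n hn x y hxy => ?_⟩
    have h2 : (x * y⁻¹) ^ n = 1 := by
      have h3 : x ^ n = y ^ n := hxy
      rw [mul_pow, inv_pow, h3, mul_inv_cancel]
    have h4 := ht _ n (Nat.pos_of_ne_zero hn) h2
    exact mul_inv_eq_one.1 h4
  have hat : IsAddTorsionFree (Additive A) := inferInstance
  have hfin : Module.Finite ℤ (Additive A) := by
    rw [Module.Finite.iff_addGroup_fg]
    exact AddGroup.fg_iff_addMonoid_fg.2 (Monoid.fg_iff_add_fg.1 (Group.fg_iff_monoid_fg.1 hfg))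
  have htm : Module.IsTorsionFree ℤ (Additive A) := inferInstance
  have hfree : Module.Free ℤ (Additive A) := inferInstance
  let b := Module.Free.chooseBasis ℤ (Additive A)
  have hnt : Nontrivial (Additive A) := by
    obtain ⟨x, hx⟩ := h1
    exact ⟨⟨Additive.ofMul x, 0, fun h => hx h⟩⟩
  obtain ⟨i⟩ := b.index_nonempty
  refine ⟨{ toFun := fun a => Multiplicative.ofAdd (b.coord i (Additive.ofMul a))
            map_one' := ?_
            map_mul' := ?_ }, ?_⟩
  · rw [ofMul_one, map_zero, ofAdd_zero]
  · intro x y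
    rw [ofMul_mul, map_add, ofAdd_add]
  · intro n
    refine ⟨Additive.toMul ((Multiplicative.toAdd n) • b i), ?_⟩
    simp

theorem exp_step (G : Type*) [Group G] (m c : ℕ)
    (h : ∀ x ∈ Subgroup.lowerCentralSeries (⊤ : Subgroup G) c,
      x ^ m ∈ Subgroup.lowerCentralSeries (⊤ : Subgroup G) (c + 1)) :
    ∀ x ∈ Subgroup.lowerCentralSeries (⊤ : Subgroup G) (c + 1),
      x ^ m ∈ Subgroup.lowerCentralSeries (⊤ : Subgroup G) (c + 2) := by
  classical
  let N : Subgroup G := Subgroup.lowerCentralSeries (⊤ : Subgroup G) (c + 2)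
  have hNdef : N = Subgroup.lowerCentralSeries (⊤ : Subgroup G) (c + 2) := rfl
  haveI : N.Normal := by rw [hNdef]; infer_instance
  let π : G →* G ⧸ N := QuotientGroup.mk' N
  have hπ1 : ∀ x : G, π x = 1 ↔ x ∈ N := fun x => QuotientGroup.eq_one_iff x
  -- images of elements of lcs (c+1) are central
  have hcent : ∀ x ∈ Subgroup.lowerCentralSeries (⊤ : Subgroup G) (c + 1), ∀ g : G,
      π x * π g = π g * π x := by
    intro x hx g
    have h1 : ⁅x, g⁆ ∈ N := by
      rw [hNdef, Subgroup.lowerCentralSeries_succ]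
      exact Subgroup.commutator_mem_commutator hx (Subgroup.mem_top g)
    have h2 : π ⁅x, g⁆ = 1 := (hπ1 _).2 h1
    rw [map_commutatorElement] at h2
    exact commutatorElement_eq_one_iff_mul_comm.1 h2
  have hpow : ∀ x ∈ Subgroup.lowerCentralSeries (⊤ : Subgroup G) c, ∀ g : G, ∀ k : ℕ,
      π ⁅x ^ k, g⁆ = (π ⁅x, g⁆) ^ k := by
    intro x hx g k
    have h1 : ⁅x, g⁆ ∈ Subgroup.lowerCentralSeries (⊤ : Subgroup G) (c + 1) := by
      rw [Subgroup.lowerCentralSeries_succ]
      exact Subgroup.commutator_mem_commutator hx (Subgroup.mem_top g)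
    induction k with
    | zero => simp
    | succ k ih =>
      have h2 : ⁅x ^ (k + 1), g⁆ = x ^ k * ⁅x, g⁆ * (x ^ k)⁻¹ * ⁅x ^ k, g⁆ := by
        simp only [commutatorElement_def, pow_succ]
        group
      rw [h2, map_mul, ih, map_mul, map_mul]
      rw [← hcent _ h1 (x ^ k), mul_assoc (π ⁅x, g⁆), ← map_mul, mul_inv_cancel, map_one, mul_one,
        pow_succ']
  intro x hx
  have key : (π x) ^ m = 1 := by
    rw [Subgroup.mem_lowerCentralSeries_succ_iff] at hx
    induction hx using Subgroup.closure_induction with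
    | mem y hy =>
      obtain ⟨p, hp, q, -, rfl⟩ := hy
      rw [← hpow p hp q m]
      refine (hπ1 _).2 ?_
      rw [hNdef, Subgroup.lowerCentralSeries_succ]
      exact Subgroup.commutator_mem_commutator (h p hp) (Subgroup.mem_top q)
    | one => simp
    | mul y z hy hz ihy ihz =>
      have hy' : y ∈ Subgroup.lowerCentralSeries (⊤ : Subgroup G) (c + 1) :=
        (Subgroup.mem_lowerCentralSeries_succ_iff _ _ _).2 hy
      have hc : Commute (π y) (π z) := hcent y hy' z
      rw [map_mul, hc.mul_pow, ihy, ihz, one_mul]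
    | inv y hy ihy =>
      rw [map_inv, inv_pow, ihy, inv_one]
  rw [← map_pow] at key
  exact (hπ1 _).1 key

theorem surj_of_nontorsion (K : Type*) [Group K] [Group.IsNilpotent K] (hfg : Group.FG K)
    (x : K) (hx : ∀ m : ℕ, 0 < m → x ^ m ≠ 1) :
    ∃ φ : K →* Multiplicative ℤ, Function.Surjective φ := by
  classical
  -- the abelianization
  haveI hfgK : Group.FG K := hfg
  by_cases hA : ∀ y : Abelianization K, IsOfFinOrder y
  · exfalso
    haveI : Group.FG (Abelianization K) :=
      Group.fg_of_surjective (f := (Abelianization.of : K →* Abelianization K))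
        (QuotientGroup.mk'_surjective _)
    haveI hfin : Finite (Abelianization K) :=
      CommGroup.finite_of_fg_torsion _ hA
    obtain ⟨m, hm0, hm⟩ : ∃ m : ℕ, 0 < m ∧ ∀ y : Abelianization K, y ^ m = 1 :=
      ⟨Nat.card (Abelianization K), Nat.card_pos, fun y => pow_card_eq_one'⟩
    have h0 : ∀ y ∈ Subgroup.lowerCentralSeries (⊤ : Subgroup K) 0,
        y ^ m ∈ Subgroup.lowerCentralSeries (⊤ : Subgroup K) (0 + 1) := by
      intro y _
      rw [zero_add, Subgroup.top_lowerCentralSeries_one]
      have h1 := hm (Abelianization.of y)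
      rw [← map_pow] at h1
      exact (QuotientGroup.eq_one_iff (y ^ m)).1 h1
    have hall : ∀ j : ℕ, ∀ y ∈ Subgroup.lowerCentralSeries (⊤ : Subgroup K) j,
        y ^ m ∈ Subgroup.lowerCentralSeries (⊤ : Subgroup K) (j + 1) := by
      intro j
      induction j with
      | zero => exact h0
      | succ j ih => exact exp_step K m j ih
    have hxj : ∀ j : ℕ, x ^ (m ^ j) ∈ Subgroup.lowerCentralSeries (⊤ : Subgroup K) j := by
      intro j
      induction j with
      | zero => simp
      | succ j ih =>
        have h1 := hall j _ ih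
        rw [← pow_mul, ← pow_succ] at h1
        exact h1
    obtain ⟨s, hs⟩ := Subgroup.nilpotent_iff_lowerCentralSeries.1 (inferInstance : Group.IsNilpotent K)
    have h2 := hxj s
    rw [hs, Subgroup.mem_bot] at h2
    exact hx _ (pow_pos hm0 s) h2
  · push Not at hA
    obtain ⟨y, hy⟩ := hA
    let B := Abelianization K ⧸ (CommGroup.torsion (Abelianization K))
    let q : Abelianization K →* B := QuotientGroup.mk' _
    haveI : Group.FG (Abelianization K) :=
      Group.fg_of_surjective (f := (Abelianization.of : K →* Abelianization K))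
        (QuotientGroup.mk'_surjective _)
    have hBfg : Group.FG B :=
      Group.fg_of_surjective (f := q) (QuotientGroup.mk'_surjective _)
    have hq1 : ∀ z : Abelianization K, q z = 1 ↔ IsOfFinOrder z := by
      intro z
      exact (QuotientGroup.eq_one_iff z)
    have hq : Function.Surjective q := QuotientGroup.mk'_surjective _
    obtain ⟨φ, hφ⟩ := ab_surj B (fun a b => mul_comm a b) hBfg (by
      intro z n hn hz
      obtain ⟨w, rfl⟩ := hq z
      rw [← map_pow, hq1] at hz
      rw [hq1]
      exact IsOfFinOrder.of_pow hz (by omega)) ⟨q y, fun h => hy ((hq1 y).1 h)⟩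
    refine ⟨φ.comp (q.comp Abelianization.of), ?_⟩
    exact hφ.comp (hq.comp (QuotientGroup.mk'_surjective _))

end Pool.Agent.Helper351.LE
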