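import Mathlib
import Pool.Agent.Helper351.Kos.Final
import Pool.Agent.Helper28.BE.U3
import Pool.Agent.Helper351.LE.T1

set_option autoImplicit false
open Pool.Agent.Helper351.Kos
open scoped commutatorElement

namespace Pool.Agent.Helper351.LE
open Pool.Agent.Helper28.BE

theorem torsion_bound (N r : ℕ) (hN : 1 ≤ N) : ∃ c : ℕ, ∀ (H : Type) [Group H] (a : Fin r → H),
    Subgroup.closure (Set.range a) = ⊤ →
    (∀ i x, (fun z : H => z⁻¹ * (a i)⁻¹ * z * a i)^[N] x = 1) →
    Group.IsNilpotent H →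
    ∀ t ∈ Subgroup.lowerCentralSeries (⊤ : Subgroup H) c, ∃ m : ℕ, 0 < m ∧ t ^ m = 1 := by
  classical
  obtain ⟨c, hc⟩ := unipotent_class_left N r hN
  refine ⟨c, ?_⟩
  intro H _ a hab hEa hH t₀ ht₀
  obtain ⟨k, hE⟩ := engel_of_nilpotent H
  by_contra hne0
  have hord : ∀ m : ℕ, 0 < m → t₀ ^ m ≠ 1 := fun m hm h => hne0 ⟨m, hm, h⟩
  have hEK : ∀ K : Subgroup H, ∀ x y : K, (fun z : K => z⁻¹ * y⁻¹ * z * y)^[k] x = 1 := by
    intro K x y
    have h1 : ∀ j : ℕ, (((fun z : K => z⁻¹ * y⁻¹ * z * y)^[j] x : K) : H) =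
        (fun z : H => z⁻¹ * (y : H)⁻¹ * z * y)^[j] (x : H) := by
      intro j
      induction j with
      | zero => rfl
      | succ j ih =>
        rw [Function.iterate_succ_apply', Function.iterate_succ_apply', ← ih]
        rfl
    apply Subtype.ext
    rw [h1, hE]
    rfl
  have hfgH : Group.FG H := by
    rw [Group.fg_iff]
    exact ⟨Set.range a, hab, Set.finite_range a⟩
  have hstep : ∀ K : Subgroup H, K.FG → t₀ ∈ K → ∃ φ : K →* Multiplicative ℤ,
      Function.Surjective φ ∧ (φ.ker.map K.subtype).FG := by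
    intro K hK hK0
    have hfgK : Group.FG K := (Group.fg_iff_subgroup_fg K).2 hK
    have hnK : Group.IsNilpotent K := inferInstance
    obtain ⟨φ, hφ⟩ := surj_of_nontorsion K hfgK ⟨t₀, hK0⟩ (fun m hm h =>
      hord m hm (by simpa using congrArg (Subtype.val) h))
    exact ⟨φ, hφ, fg_map' _ (ker_fg K k (hEK K) φ hφ)⟩
  choose! Φ hΦ using hstep
  let step : {K : Subgroup H // K.FG} → {K : Subgroup H // K.FG} := fun K =>
    if h : t₀ ∈ K.1 then ⟨(Φ K.1).ker.map K.1.subtype, (hΦ K.1 K.2 h).2⟩ else K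
  let N : ℕ → {K : Subgroup H // K.FG} := fun i => Nat.rec ⟨⊤, (Group.fg_def).1 hfgH⟩
    (fun _ K => step K) i
  have hN0 : (N 0).1 = ⊤ := rfl
  have hNs : ∀ i, t₀ ∈ (N i).1 → (N (i + 1)).1 = (Φ (N i).1).ker.map (N i).1.subtype := by
    intro i h
    change (step (N i)).1 = _
    simp only [step]
    rw [dif_pos h]
  have key : ∀ i, (Subgroup.lowerCentralSeries (⊤ : Subgroup H) c ≤ (N i).1) ∧
      ∀ t : (N i).1, UDetect (N i).1 t → UDetect H t := by
    intro i
    induction i with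
    | zero =>
      refine ⟨by rw [hN0]; exact le_top, ?_⟩
      intro t ht
      exact UDetect.equiv (Subgroup.topEquiv (G := H)) ht
    | succ i ih =>
      have h0 : t₀ ∈ (N i).1 := ih.1 ht₀
      have hs := hNs i h0
      obtain ⟨hsurj, -⟩ := hΦ (N i).1 (N i).2 h0
      refine ⟨?_, ?_⟩
      · intro t ht
        rw [hs]
        have htN := ih.1 ht
        refine ⟨⟨t, htN⟩, ?_, rfl⟩
        change Φ (N i).1 ⟨t, htN⟩ = 1
        by_contra hcon
        obtain ⟨R, i1, i2, ρ, M, hM, hρ⟩ := ih.2 ⟨t, htN⟩ (UDetect.of_int _ hcon)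
        exact hρ (hc H a hab hEa R ρ M hM t ht)
      · intro t ht
        have ht2 : (t : H) ∈ (Φ (N i).1).ker.map (N i).1.subtype := hs ▸ t.2
        obtain ⟨t', ht', htt⟩ := ht2
        let e : (N (i + 1)).1 ≃* (Φ (N i).1).ker :=
          (MulEquiv.subgroupCongr hs).trans
            ((Φ (N i).1).ker.equivMapOfInjective _ (N i).1.subtype_injective).symm
        have he : e t = ⟨t', ht'⟩ := by
          change ((Φ (N i).1).ker.equivMapOfInjective _ (N i).1.subtype_injective).symm
            (MulEquiv.subgroupCongr hs t) = _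
          rw [MulEquiv.symm_apply_eq]
          apply Subtype.ext
          exact htt.symm
        have h1 := UDetect.equiv e ht
        rw [he] at h1
        have h2 := lift_detect (N i).1 k (hEK _) (Φ (N i).1) hsurj ⟨t', ht'⟩ h1
        have h3 := ih.2 _ h2
        have h4 : ((t' : (N i).1) : H) = t := htt
        rw [← h4]
        exact h3
  refine no_chain H c (fun i => (N i).1) (fun i => (key i).1) ?_ (fun i => Φ (N i).1) ?_ ?_
  · intro i
    have h0 : t₀ ∈ (N i).1 := (key i).1 ht₀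
    rw [hNs i h0]
    rintro _ ⟨x, -, rfl⟩
    exact x.2
  · intro i
    have h0 : t₀ ∈ (N i).1 := (key i).1 ht₀
    exact (hΦ _ (N i).2 h0).1
  · intro i x
    have h0 : t₀ ∈ (N i).1 := (key i).1 ht₀
    rw [hNs i h0]
    constructor
    · intro h
      exact ⟨x, h, rfl⟩
    · rintro ⟨y, hy, hyx⟩
      have : y = x := Subtype.ext hyx
      rw [← this]
      exact hy

end Pool.Agent.Helper351.LE
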