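import Mathlib
import Pool.Agent.Helper28.BO.P_gamma_nc
import Pool.Agent.Helper351.LE.T2

set_option autoImplicit false
open scoped commutatorElement

namespace Pool.Agent.Helper351.LE
open Pool.Agent.Helper28.BO

theorem engel_semi {G K : Type*} [Group G] [Group K] (f : G →* K) (a : G) (N : ℕ) (x : G) :
    f ((fun z : G => z⁻¹ * a⁻¹ * z * a)^[N] x) =
      (fun z : K => z⁻¹ * (f a)⁻¹ * z * f a)^[N] (f x) := by
  have h : Function.Semiconj f (fun z : G => z⁻¹ * a⁻¹ * z * a)
      (fun z : K => z⁻¹ * (f a)⁻¹ * z * f a) := by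
    intro z; simp
  exact h.iterate_right N x

/-- counterexample of class `c` -/
structure CE (N r c e : ℕ) where
  Q : Type
  inst : Group Q
  a : Fin r → Q
  gen : Subgroup.closure (Set.range a) = ⊤
  eng : ∀ i x, (fun z : Q => z⁻¹ * (a i)⁻¹ * z * a i)^[N] x = 1
  bot : Subgroup.lowerCentralSeries (⊤ : Subgroup Q) (c + 1) = ⊥
  x : Q
  hx : x ∈ Subgroup.lowerCentralSeries (⊤ : Subgroup Q) c
  hxe : x ^ e ≠ 1

theorem mkCE (N r c e : ℕ) (G : Type) [Group G] (a : Fin r → G)
    (hgen : Subgroup.closure (Set.range a) = ⊤)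
    (heng : ∀ i x, (fun z : G => z⁻¹ * (a i)⁻¹ * z * a i)^[N] x = 1) (x : G)
    (hx : x ∈ Subgroup.lowerCentralSeries (⊤ : Subgroup G) c)
    (hxe : x ^ e ∉ Subgroup.lowerCentralSeries (⊤ : Subgroup G) (c + 1)) : Nonempty (CE N r c e) := by
  set L := Subgroup.lowerCentralSeries (⊤ : Subgroup G) (c + 1) with hL
  haveI : L.Normal := by rw [hL]; infer_instance
  set f : G →* G ⧸ L := QuotientGroup.mk' L with hf
  have hsurj : Function.Surjective f := QuotientGroup.mk'_surjective L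
  have hmap : ∀ n, (Subgroup.lowerCentralSeries (⊤ : Subgroup G) n).map f =
      Subgroup.lowerCentralSeries (⊤ : Subgroup (G ⧸ L)) n := by
    intro n
    rw [Subgroup.map_lowerCentralSeries, ← MonoidHom.range_eq_map, MonoidHom.range_eq_top.mpr hsurj]
  refine ⟨⟨G ⧸ L, inferInstance, fun i => f (a i), ?_, ?_, ?_, f x, ?_, ?_⟩⟩
  · have h1 : Set.range (fun i => f (a i)) = f '' Set.range a := by
      rw [← Set.range_comp]; rfl
    rw [h1, ← MonoidHom.map_closure, hgen, ← MonoidHom.range_eq_map,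
      MonoidHom.range_eq_top.mpr hsurj]
  · intro i y
    obtain ⟨z, rfl⟩ := hsurj y
    rw [← engel_semi, heng, map_one]
  · rw [← hmap, eq_bot_iff]
    rintro y ⟨z, hz, rfl⟩
    rw [Subgroup.mem_bot]
    exact (QuotientGroup.eq_one_iff z).mpr hz
  · rw [← hmap]
    exact Subgroup.mem_map_of_mem f hx
  · rw [← map_pow]
    intro h
    exact hxe ((QuotientGroup.eq_one_iff _).mp h)

theorem no_CE (N r : ℕ) (c : ℕ) (hc : ∀ (H : Type) [Group H] (a : Fin r → H),
    Subgroup.closure (Set.range a) = ⊤ →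
    (∀ i x, (fun z : H => z⁻¹ * (a i)⁻¹ * z * a i)^[N] x = 1) →
    Group.IsNilpotent H →
    ∀ t ∈ Subgroup.lowerCentralSeries (⊤ : Subgroup H) c, ∃ m : ℕ, 0 < m ∧ t ^ m = 1)
    (C : ∀ k : ℕ, CE N r c (Nat.factorial (k + 1))) : False := by
  classical
  letI inst : ∀ k, Group (C k).Q := fun k => (C k).inst
  let b : Fin r → (∀ k, (C k).Q) := fun i k => (C k).a i
  set H : Subgroup (∀ k, (C k).Q) := Subgroup.closure (Set.range b) with hH
  have hb : ∀ i, b i ∈ H := fun i => Subgroup.subset_closure ⟨i, rfl⟩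
  let b' : Fin r → H := fun i => ⟨b i, hb i⟩
  have hgen' : Subgroup.closure (Set.range b') = ⊤ := by
    have h1 : Set.range b' = ((↑) : H → (∀ k, (C k).Q)) ⁻¹' (Set.range b) := by
      ext y
      constructor
      · rintro ⟨i, rfl⟩; exact ⟨i, rfl⟩
      · rintro ⟨i, hi⟩; exact ⟨i, Subtype.ext hi⟩
    rw [h1]
    exact Subgroup.closure_closure_coe_preimage
  let π : ∀ k, H →* (C k).Q := fun k => (Pi.evalMonoidHom (fun k => (C k).Q) k).comp H.subtype
  have hπ : ∀ k (h : H), π k h = h.1 k := fun k h => rfl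
  have hπb : ∀ k i, π k (b' i) = (C k).a i := fun k i => rfl
  have hext : ∀ h : H, (∀ k, π k h = 1) → h = 1 := by
    intro h hh
    apply Subtype.ext
    funext k
    exact hh k
  have hsurj : ∀ k, Function.Surjective (π k) := by
    intro k
    rw [← MonoidHom.range_eq_top, eq_top_iff, ← (C k).gen, Subgroup.closure_le]
    rintro _ ⟨i, rfl⟩
    exact ⟨b' i, hπb k i⟩
  have hmap : ∀ k n, (Subgroup.lowerCentralSeries (⊤ : Subgroup H) n).map (π k) =
      Subgroup.lowerCentralSeries (⊤ : Subgroup (C k).Q) n := by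
    intro k n
    rw [Subgroup.map_lowerCentralSeries, ← MonoidHom.range_eq_map,
      MonoidHom.range_eq_top.mpr (hsurj k)]
  have heng : ∀ i (x : H), (fun z : H => z⁻¹ * (b' i)⁻¹ * z * b' i)^[N] x = 1 := by
    intro i x
    apply hext
    intro k
    rw [engel_semi, hπb]
    exact (C k).eng i _
  have hbot : Subgroup.lowerCentralSeries (⊤ : Subgroup H) (c + 1) = ⊥ := by
    rw [eq_bot_iff]
    intro h hh
    rw [Subgroup.mem_bot]
    apply hext
    intro k
    have h1 := Subgroup.mem_map_of_mem (π k) hh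
    rw [hmap, (C k).bot, Subgroup.mem_bot] at h1
    exact h1
  have hnil : Group.IsNilpotent H := Subgroup.nilpotent_iff_lowerCentralSeries.mpr ⟨c + 1, hbot⟩
  have htor := hc H b' hgen' heng hnil
  obtain ⟨T, hTfin, hT, hTc⟩ := gamma_nc b' hgen' c
  have hcen : ∀ x ∈ Subgroup.lowerCentralSeries (⊤ : Subgroup H) c, ∀ y : H, x * y = y * x := by
    intro x hx y
    have h1 : ⁅x, y⁆ ∈ Subgroup.lowerCentralSeries (⊤ : Subgroup H) (c + 1) := by
      rw [Subgroup.lowerCentralSeries_succ]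
      exact Subgroup.commutator_mem_commutator hx (Subgroup.mem_top y)
    rw [hbot, Subgroup.mem_bot] at h1
    exact commutatorElement_eq_one_iff_mul_comm.mp h1
  choose! m hm1 hm2 using htor
  set M := ∏ t ∈ hTfin.toFinset, m t with hM
  let Z : Subgroup H :=
    { carrier := {x | (∀ y : H, x * y = y * x) ∧ x ^ M = 1}
      one_mem' := ⟨fun y => by simp, one_pow _⟩
      mul_mem' := by
        rintro x y ⟨hx1, hx2⟩ ⟨hy1, hy2⟩
        refine ⟨fun z => ?_, ?_⟩
        · rw [mul_assoc, hy1, ← mul_assoc, hx1, mul_assoc]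
        · rw [(show Commute x y from hx1 y).mul_pow, hx2, hy2, one_mul]
      inv_mem' := by
        rintro x ⟨hx1, hx2⟩
        refine ⟨fun z => ?_, ?_⟩
        · exact ((show Commute x z from hx1 z).inv_left).eq
        · rw [inv_pow, hx2, inv_one] }
  haveI hZn : Z.Normal := by
    constructor
    rintro x ⟨hx1, hx2⟩ g
    have : g * x * g⁻¹ = x := by rw [← hx1 g, mul_assoc, mul_inv_cancel, mul_one]
    rw [this]
    exact ⟨hx1, hx2⟩
  have hTZ : T ⊆ Z := by
    intro t ht
    refine ⟨hcen t (hT t ht), ?_⟩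
    have hdvd : m t ∣ M := Finset.dvd_prod_of_mem _ (hTfin.mem_toFinset.mpr ht)
    obtain ⟨q, hq⟩ := hdvd
    rw [hq, pow_mul, hm2 t (hT t ht), one_pow]
  have hZ : Subgroup.lowerCentralSeries (⊤ : Subgroup H) c ≤ Z :=
    hTc.trans (Subgroup.normalClosure_le_normal hTZ)
  have hx := (C M).hx
  rw [← hmap] at hx
  obtain ⟨h, hh, hhx⟩ := hx
  have h1 : h ^ M = 1 := (hZ hh).2
  apply (C M).hxe
  have hMpos : 0 < M := Finset.prod_pos fun t ht => hm1 t (hT t (hTfin.mem_toFinset.mp ht))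
  have hdvd : M ∣ Nat.factorial (M + 1) := Nat.dvd_factorial hMpos (Nat.le_succ M)
  obtain ⟨q, hq⟩ := hdvd
  have h2 : (C M).x ^ M = 1 := by rw [← hhx, ← map_pow, h1, map_one]
  have h3 : (C M).x ^ (M * q) = 1 := by rw [pow_mul, h2, one_pow]
  exact (congrArg (fun n : ℕ => (C M).x ^ n) hq).trans h3

/-- TARGET -/
theorem uniform_exp (N r : ℕ) (hN : 1 ≤ N) : ∃ c e : ℕ, 0 < e ∧ ∀ (G : Type) [Group G]
    [Group.IsNilpotent G] (a : Fin r → G),
    Subgroup.closure (Set.range a) = ⊤ →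
    (∀ i x, (fun z : G => z⁻¹ * (a i)⁻¹ * z * a i)^[N] x = 1) →
    (∀ k, c ≤ k → ∀ x ∈ Subgroup.lowerCentralSeries (⊤ : Subgroup G) k,
      x ^ e ∈ Subgroup.lowerCentralSeries (⊤ : Subgroup G) (k + 1)) ∧
    ((∀ x : G, x ^ e = 1 → x = 1) → Subgroup.lowerCentralSeries (⊤ : Subgroup G) c = ⊥) := by
  obtain ⟨c, hc⟩ := torsion_bound N r hN
  have h1 : ∃ e : ℕ, 0 < e ∧ ∀ (G : Type) [Group G] (a : Fin r → G),
      Subgroup.closure (Set.range a) = ⊤ →
      (∀ i x, (fun z : G => z⁻¹ * (a i)⁻¹ * z * a i)^[N] x = 1) →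
      ∀ x ∈ Subgroup.lowerCentralSeries (⊤ : Subgroup G) c,
        x ^ e ∈ Subgroup.lowerCentralSeries (⊤ : Subgroup G) (c + 1) := by
    by_contra hcon
    push Not at hcon
    have h2 : ∀ k : ℕ, Nonempty (CE N r c (Nat.factorial (k + 1))) := by
      intro k
      obtain ⟨G, hG, a, hgen, heng, x, hx, hxe⟩ := hcon (Nat.factorial (k + 1)) (Nat.factorial_pos _)
      exact mkCE N r c _ G a hgen heng x hx hxe
    exact no_CE N r c hc (fun k => (h2 k).some)
  obtain ⟨e, he, h1⟩ := h1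
  refine ⟨c, e, he, ?_⟩
  intro G _ _ a hgen heng
  have h2 : ∀ k, c ≤ k → ∀ x ∈ Subgroup.lowerCentralSeries (⊤ : Subgroup G) k,
      x ^ e ∈ Subgroup.lowerCentralSeries (⊤ : Subgroup G) (k + 1) := by
    intro k hk
    induction k, hk using Nat.le_induction with
    | base => exact h1 G a hgen heng
    | succ k hk ih => exact exp_step G e k ih
  refine ⟨h2, fun htf => ?_⟩
  obtain ⟨s, hs⟩ := Subgroup.nilpotent_iff_lowerCentralSeries.mp (inferInstance : Group.IsNilpotent G)
  rw [eq_bot_iff]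
  intro x hx
  rw [Subgroup.mem_bot]
  have h3 : ∀ j, x ^ (e ^ j) ∈ Subgroup.lowerCentralSeries (⊤ : Subgroup G) (c + j) := by
    intro j
    induction j with
    | zero => simpa using hx
    | succ j ih =>
      rw [pow_succ, pow_mul]
      exact h2 (c + j) (Nat.le_add_right _ _) _ ih
  have h4 : x ^ (e ^ s) = 1 := by
    have h5 := h3 s
    have h6 : Subgroup.lowerCentralSeries (⊤ : Subgroup G) (c + s) ≤ ⊥ := by
      rw [← hs]
      exact Subgroup.lowerCentralSeries_antitone _ (Nat.le_add_left _ _)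
    exact Subgroup.mem_bot.mp (h6 h5)
  have h5 : ∀ j, x ^ (e ^ j) = 1 → x = 1 := by
    intro j
    induction j with
    | zero => intro h; simpa using h
    | succ j ih =>
      intro h
      rw [pow_succ, pow_mul] at h
      exact ih (htf _ h)
  exact h5 s h4

end Pool.Agent.Helper351.LE
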